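import Pool.Agent.Helper10.HS.GoalsL
import Pool.Agent.Helper52.RK.SPECK
import Pool.Agent.Helper26.RK.FINSPK
import Pool.Agent.Helper10.SP.WIRT

/-! # HS, goal FLS: a finite family of special charts, b = 0 -/

set_option autoImplicit false

open Complex Metric Set Filter Topology MeasureTheory
open scoped ContDiff ComplexConjugate ComplexOrder Manifold Matrix

namespace Pool.Agent.Helper49.HS

open Pool.Agent.Helper95.Lin Pool.Agent.Helper16.Abund Pool.Agent.Helper92.Orb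
  Pool.Agent.Helper10.SP Pool.Agent.Helper95.RK
open Pool.Agent.Helper52.RK

universe u v

/-- SPECK for any `b`, from the vanishing in the conclusion of `BZERO`. -/
theorem speck_gen (hWIRT : S_WIRT) (hWCH : S_WCH) (hPARBK : S_PARBK.{u, v}) (hPMB : S_PMB.{u, v})
    (hAFFC : S_AFFC) {b k : ℕ} {G : Type u} {M : Type v} [Group G] [MulAction G M]
    [TopologicalSpace M] [T2Space M] [ConnectedSpace M] [ChartedSpace (Fin (b + k) → ℂ) M]
    [IsManifold 𝓘(ℂ, Fin (b + k) → ℂ) ω M] {h q : M → Matrix (Fin (b + k)) (Fin (b + k)) ℂ}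
    {v : M → ℝ} (hD : DataK b k G M h v) (hFol : FlatFol b k G M q v)
    (hB : ∀ (U : Set (Cn b)) (Δ : Set (Cn k)) (ψ : Cn (b + k) → M), IsOpen U → IsOpen Δ →
      FolPar v U Δ ψ → ∀ x ∈ prodK U Δ, ∀ (a : Fin b) (i j l : Fin k),
      cdb (Fin.castAdd k a) (fun y => chrM (gm q ψ) i y j l) x = 0) (p : M) :
    ∃ r > 0, ∃ (ψ : Cn (b + k) → M) (Ψ : Cn b → ℝ) (Hf : Cn b → Matrix (Fin k) (Fin k) ℂ),
      SpecK v q (ball (0 : Cn b) r) (ball (0 : Cn k) r) ψ Ψ Hf ∧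
      InjOn ψ (prodK (ball (0 : Cn b) r) (ball (0 : Cn k) r)) ∧ ψ 0 = p := by
  obtain ⟨r, hr, ψ₀, hFP, hinj, hψ0⟩ := hFol.chart p
  have hFG := hFol.flat _ _ ψ₀ isOpen_ball isOpen_ball hFP
  have hBz := hB _ _ ψ₀ isOpen_ball isOpen_ball hFP
  obtain ⟨r', hr', σ, Hf, s1, s2, s3, s4, s5, s6⟩ := hAFFC r hr (gm q ψ₀)
    (lpot (b + k) v ψ₀) hFG hBz
  obtain ⟨hP1, -⟩ := hPARBK hD
  obtain ⟨hM1, hM2⟩ := hPMB hD q hFol.herm hFol.inv
  have hW' : IsOpen (prodK (ball (0 : Cn b) r') (ball (0 : Cn k) r')) :=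
    isOpen_prodK isOpen_ball isOpen_ball
  have hW : IsOpen (prodK (ball (0 : Cn b) r) (ball (0 : Cn k) r)) :=
    isOpen_prodK isOpen_ball isOpen_ball
  set W' := prodK (ball (0 : Cn b) r') (ball (0 : Cn k) r') with hW'def
  set W := prodK (ball (0 : Cn b) r) (ball (0 : Cn k) r) with hWdef
  obtain ⟨hPar, hlp⟩ := hP1 W W' ψ₀ σ hFP.1 hW' s1 s3 (fun x hx => (s6 x hx).1)
  have hsm₀ : ContDiffOn ℝ ∞ (lpot (b + k) v ψ₀) W := hD.met.smooth _ _ hFP.1
  have hsm : ContDiffOn ℝ ∞ (lpot (b + k) v (ψ₀ ∘ σ)) W' := hD.met.smooth _ _ hPar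
  -- the derivative of σ
  have hbd : ∀ x ∈ W', ∀ e, base (fderiv ℂ σ x e) = base e := by
    intro x hx e
    have h1 : HasFDerivAt (fun y => base (σ y)) ((bsL b k).comp (fderiv ℂ σ x)) x :=
      (bsL b k).hasFDerivAt.comp x (s1.differentiableAt (hW'.mem_nhds hx)).hasFDerivAt
    have h2 : (fun y => base (σ y)) =ᶠ[𝓝 x] fun y => bsL b k y := by
      filter_upwards [hW'.mem_nhds hx] with y hy
      exact (s6 y hy).2.1
    have h3 : HasFDerivAt (fun y => base (σ y)) (bsL b k) x :=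
      (bsL b k).hasFDerivAt.congr_of_eventuallyEq h2
    exact DFunLike.congr_fun (h1.unique h3) e
  -- the leaf metric
  have hleaf : ∀ x ∈ W', gm q (ψ₀ ∘ σ) x = Hf (base x) := by
    intro x hx
    rw [← (s6 x hx).2.2]
    refine Pool.Agent.Helper16.RK.hermi_ext fun u w => ?_
    have e1 : ∀ u : Cn k, fderiv ℂ σ x (ptK 0 u) = ptK 0 ((Jfq σ x)ᵀ *ᵥ u) := by
      intro u
      apply ext_base_fib
      · rw [hbd x hx, base_ptK, base_ptK]
      · rw [fib_ptK]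
        have h1 : (ptK 0 u : Cn (b + k)) = ∑ i, u i • ef b i := by
          have := eq_sum_ef (b := b) (u := ptK 0 u) (base_ptK _ _)
          rwa [fib_ptK] at this
        rw [h1, map_sum]
        funext j
        change (∑ i, fderiv ℂ σ x (u i • ef b i)) (Fin.natAdd b j) = _
        rw [Finset.sum_apply]
        simp only [Matrix.mulVec, dotProduct, Matrix.transpose_apply, map_smul, Pi.smul_apply,
          smul_eq_mul]
        refine Finset.sum_congr rfl fun i _ => ?_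
        rw [mul_comm]
        rfl
    change hermi (fbl (pm (b + k) q (ψ₀ ∘ σ) x)) u w = _
    rw [← Pool.Agent.Helper16.RK.hermi_ptK, hM2 W W' ψ₀ σ hFP.1 hW' s1 s3
      (fun x hx => (s6 x hx).1) x hx, e1, e1, Pool.Agent.Helper16.RK.hermi_ptK]
    exact hermi_J _ _ _ _
  -- the Levi form
  obtain ⟨w1, w2⟩ := hWCH
  obtain ⟨-, w3⟩ := w1 W W' hW hW' σ s1 s3
  have hdetd : DifferentiableOn ℂ (fun x => (fderiv ℂ σ x).det) W' :=
    Pool.Agent.Helper10.Abund.differentiableOn_det_fderiv hW' s1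
  obtain ⟨w4, w5⟩ := w2 W' hW' (fun x => (fderiv ℂ σ x).det) hdetd (fun x hx => (s6 x hx).1)
  have hσr : ContDiffOn ℝ ∞ σ W' := holo_contDiffOn_real hW' s1
  have hlev : ∀ x ∈ W', ∀ e, lev (lpot (b + k) v (ψ₀ ∘ σ)) x e = 0 ↔ base e = 0 := by
    intro x hx e
    have e1 : lpot (b + k) v (ψ₀ ∘ σ) =ᶠ[𝓝 x]
        fun y => (lpot (b + k) v ψ₀ ∘ σ) y + Real.log (‖(fderiv ℂ σ y).det‖ ^ 2) := by
      filter_upwards [hW'.mem_nhds hx] with y hy
      exact (hlp y hy).2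
    rw [Pool.Agent.Helper9.Lin.lev_congr e1 e,
      Pool.Agent.Helper55.SP.lev_add hW' (hsm₀.comp hσr s3) w4 hx, (w5 x hx).1, add_zero,
      (w3 _ hsm₀ x hx).1, hFP.2 _ (s3 hx), hbd x hx]
  have hFP' : FolPar v (ball (0 : Cn b) r') (ball (0 : Cn k) r') (ψ₀ ∘ σ) := ⟨hPar, hlev⟩
  have hFG' := hFol.flat _ _ (ψ₀ ∘ σ) isOpen_ball isOpen_ball hFP'
  -- the potential does not depend on the fibre coordinates
  have hcd : ∀ x ∈ W', ∀ i : Fin k, cd (Fin.natAdd b i)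
      (fun y => ((lpot (b + k) v (ψ₀ ∘ σ) y : ℝ) : ℂ)) x = 0 := by
    intro x hx i
    rw [← hFG'.vol x hx i]
    have e1 : (fun y => ((Real.log (gm q (ψ₀ ∘ σ) y).det.re : ℝ) : ℂ)) =ᶠ[𝓝 x]
        fun y => ((Real.log (Hf (base y)).det.re : ℝ) : ℂ) := by
      filter_upwards [hW'.mem_nhds hx] with y hy
      rw [hleaf y hy]
    rw [Pool.Agent.Helper58.SP.cd_congr_nhds e1]
    have hdd : DifferentiableAt ℝ (fun z => ((Real.log (Hf z).det.re : ℝ) : ℂ)) (base x) := by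
      have h2 : DifferentiableAt ℝ (fun z => (Hf z).det) (base x) :=
        ((Pool.Agent.Helper93.RK.contDiffOn_det s5).contDiffAt
          (isOpen_ball.mem_nhds hx.1)).differentiableAt (by simp)
      have h3 : DifferentiableAt ℝ (fun z => (Hf z).det.re) (base x) :=
        Complex.reCLM.differentiableAt.comp _ h2
      have h4 : (Hf (base x)).det.re ≠ 0 := by
        have h5 : (gm q (ψ₀ ∘ σ) x).PosDef := fbl_posDef ((hM1 W' (ψ₀ ∘ σ) hPar).2.1 x hx)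
        rw [hleaf x hx] at h5
        have h6 := h5.det_pos
        exact (Complex.pos_iff.1 h6).1.ne'
      have h7 : DifferentiableAt ℝ (fun z => Real.log (Hf z).det.re) (base x) := h3.log h4
      exact Complex.ofRealCLM.differentiableAt.comp _ h7
    have h8 : HasFDerivAt (fun y : Cn (b + k) => ((Real.log (Hf (base y)).det.re : ℝ) : ℂ))
        ((fderiv ℝ (fun z => ((Real.log (Hf z).det.re : ℝ) : ℂ)) (base x)).comp
          ((bsL b k).restrictScalars ℝ)) x :=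
      hdd.hasFDerivAt.comp x ((bsL b k).restrictScalars ℝ).hasFDerivAt
    unfold cd
    rw [h8.fderiv]
    have h9 : (Pi.single (Fin.natAdd b i) I : Cn (b + k)) = I • ef b i := by
      rw [ef, ← Pi.single_smul]
      simp
    have h10 : base (Pi.single (Fin.natAdd b i) 1 : Cn (b + k)) = 0 := base_ef i
    have h11 : base (Pi.single (Fin.natAdd b i) I : Cn (b + k)) = 0 := by
      rw [h9, base_smul, base_ef, smul_zero]
    simp only [ContinuousLinearMap.comp_apply, ContinuousLinearMap.coe_restrictScalars',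
      bsL_apply, h10, h11, map_zero, mul_zero, sub_zero]
  have hsmc : ContDiffOn ℝ ∞ (fun y => ((lpot (b + k) v (ψ₀ ∘ σ) y : ℝ) : ℂ)) W' :=
    Complex.ofRealCLM.contDiff.comp_contDiffOn hsm
  have hcdb : ∀ x ∈ W', ∀ i : Fin k, cdb (Fin.natAdd b i)
      (fun y => ((lpot (b + k) v (ψ₀ ∘ σ) y : ℝ) : ℂ)) x = 0 := by
    intro x hx i
    have hw := hWIRT W' hW' _ _ hsmc hsmc
    have h1 := (hw.2.2.2.1 (Fin.natAdd b i) x hx).2
    have h2 : (fun y => conj ((lpot (b + k) v (ψ₀ ∘ σ) y : ℝ) : ℂ)) = fun y =>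
        ((lpot (b + k) v (ψ₀ ∘ σ) y : ℝ) : ℂ) := by
      funext y
      exact Complex.conj_ofReal _
    rw [h2, hcd x hx i, map_zero] at h1
    exact h1
  have hz0 : ∀ z ∈ ball (0 : Cn b) r', (ptK z 0 : Cn (b + k)) ∈ W' := fun z hz =>
    ⟨by rwa [base_ptK], by rw [fib_ptK]; exact mem_ball_self hr'⟩
  have hpot : ∀ x ∈ W', lpot (b + k) v (ψ₀ ∘ σ) x = lpot (b + k) v (ψ₀ ∘ σ) (ptK (base x) 0) := by
    intro x hx
    have hmem : ∀ w ∈ ball (0 : Cn k) r', (ptK (base x) w : Cn (b + k)) ∈ W' := fun w hw =>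
      ⟨by rw [base_ptK]; exact hx.1, by rwa [fib_ptK]⟩
    have h1 := fib_const (f := fun y => ((lpot (b + k) v (ψ₀ ∘ σ) y : ℝ) : ℂ)) (z := base x)
      isOpen_ball (convex_ball (0 : Cn k) r').isPreconnected
      (fun w hw => (hsmc.contDiffAt (hW'.mem_nhds (hmem w hw))).differentiableAt (by simp))
      (fun w hw u hu => fder_zero (fun i => hcd _ (hmem w hw) i)
        (fun i => hcdb _ (hmem w hw) i) hu) hx.2 (mem_ball_self hr')
    rw [ptK_base_fib] at h1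
    exact Complex.ofReal_injective h1
  have hzsm : ContDiff ℝ ∞ (fun z : Cn b => (ptK z 0 : Cn (b + k))) :=
    ((zL b k).restrictScalars ℝ).contDiff
  refine ⟨r', hr', ψ₀ ∘ σ, fun z => lpot (b + k) v (ψ₀ ∘ σ) (ptK z 0), Hf,
    ⟨hPar, ?_, ?_, hpot, s5, ?_, hleaf⟩, ?_, ?_⟩
  · exact hsm.comp hzsm.contDiffOn (fun z hz => hz0 z hz)
  · intro z hz e he
    have h1 := ((w1 W' (ball (0 : Cn b) r') hW' isOpen_ball (fun z => ptK z 0)
      (zL b k).differentiable.differentiableOn (fun z hz => hz0 z hz)).2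
      (lpot (b + k) v (ψ₀ ∘ σ)) hsm z hz).1 e
    have h2 : fderiv ℂ (fun z : Cn b => (ptK z 0 : Cn (b + k))) z e = ptK e 0 := by
      rw [(hasFDerivAt_ptK_left z (0 : Cn k)).fderiv]
      rfl
    rw [h2] at h1
    have h3 : lev (fun z => lpot (b + k) v (ψ₀ ∘ σ) (ptK z 0)) z e =
        lev (lpot (b + k) v (ψ₀ ∘ σ)) (ptK z 0) (ptK e 0) := h1
    rw [h3]
    refine lt_of_le_of_ne ((hD.rank _ _ hPar _ (hz0 z hz)).1 _) fun h0 => ?_
    have h4 := (hlev _ (hz0 z hz) _).1 h0.symm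
    rw [base_ptK] at h4
    exact he h4
  · intro z hz
    have h5 : (gm q (ψ₀ ∘ σ) (ptK z 0)).PosDef :=
      fbl_posDef ((hM1 W' (ψ₀ ∘ σ) hPar).2.1 _ (hz0 z hz))
    rwa [hleaf _ (hz0 z hz), base_ptK] at h5
  · exact hinj.comp s2 s3
  · change ψ₀ (σ 0) = p
    rw [s4, hψ0]

open Pool.Agent.Helper26.RK

theorem spec_one_gen (hPARB : S_PARBK.{u, v}) (hPMB : S_PMB.{u, v})
    (hWCH : S_WCH) {b k : ℕ} {G : Type u}
    {M : Type v} [Group G] [MulAction G M]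
    [TopologicalSpace M] [T2Space M] [ConnectedSpace M] [ChartedSpace (Fin (b + k) → ℂ) M]
    [IsManifold 𝓘(ℂ, Fin (b + k) → ℂ) ω M] {h q : M → Matrix (Fin (b + k)) (Fin (b + k)) ℂ}
    {v : M → ℝ} (D : DataK b k G M h v) (F : FlatFol b k G M q v)
    (hSPEC : ∀ p : M, ∃ r > 0, ∃ (ψ : Cn (b + k) → M) (Ψ : Cn b → ℝ)
      (Hf : Cn b → Matrix (Fin k) (Fin k) ℂ),
      SpecK v q (ball (0 : Cn b) r) (ball (0 : Cn k) r) ψ Ψ Hf ∧
      InjOn ψ (prodK (ball (0 : Cn b) r) (ball (0 : Cn k) r)) ∧ ψ 0 = p) (p : M) :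
    ∃ (ψ : Cn (b + k) → M) (Ψ : Cn b → ℝ) (Hf : Cn b → Matrix (Fin k) (Fin k) ℂ),
      SpecK v q (ball (0 : Cn b) 6) (ball (0 : Cn k) 6) ψ Ψ Hf ∧ ψ 0 = p := by
  obtain ⟨r, hr, ψ, Ψ, Hf, ⟨hpar, hsm, hpos, hpot, hsmH, hposH, hleaf⟩, -, h0⟩ := hSPEC p
  have hs : 0 < r / 6 := by positivity
  have hmn : ∀ n : ℕ, MapsTo (scl n (r / 6)) (ball 0 6) (ball 0 r) := by
    intro n z hz
    rw [mem_ball_zero_iff] at hz ⊢
    rw [scl_apply, norm_smul, Complex.norm_real, Real.norm_eq_abs, abs_of_pos hs]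
    nlinarith
  have hm := hmn b
  have hV' : IsOpen (prodK (ball (0 : Cn b) 6) (ball (0 : Cn k) 6)) :=
    isOpen_prodK isOpen_ball isOpen_ball
  have hmV : MapsTo (scl (b + k) (r / 6)) (prodK (ball (0 : Cn b) 6) (ball (0 : Cn k) 6))
      (prodK (ball (0 : Cn b) r) (ball (0 : Cn k) r)) := by
    intro x hx
    exact ⟨hm hx.1, hmn k hx.2⟩
  have hfd : ∀ x, fderiv ℂ (scl (b + k) (r / 6)) x = scl (b + k) (r / 6) := fun x =>
    (scl (b + k) (r / 6)).fderiv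
  have hdet : ∀ x ∈ prodK (ball (0 : Cn b) 6) (ball (0 : Cn k) 6),
      (fderiv ℂ (scl (b + k) (r / 6)) x).det ≠ 0 := fun x _ => by
    rw [hfd x]; exact scl_det _ _ hs
  obtain ⟨hp1, hp2⟩ := (hPARB D).1 (prodK (ball (0 : Cn b) r) (ball (0 : Cn k) r))
    (prodK (ball (0 : Cn b) 6) (ball (0 : Cn k) 6)) ψ
    (scl (b + k) (r / 6)) hpar hV' (scl (b + k) (r / 6)).differentiable.differentiableOn hmV
    hdet
  have hpm := (hPMB D q F.herm F.inv).2 (prodK (ball (0 : Cn b) r) (ball (0 : Cn k) r))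
    (prodK (ball (0 : Cn b) 6) (ball (0 : Cn k) 6)) ψ
    (scl (b + k) (r / 6)) hpar hV' (scl (b + k) (r / 6)).differentiable.differentiableOn hmV
    hdet
  refine ⟨ψ ∘ scl (b + k) (r / 6), fun z => Ψ (scl b (r / 6) z) +
    Real.log (‖(scl (b + k) (r / 6)).det‖ ^ 2),
    fun z => (((r / 6) ^ 2 : ℝ) : ℂ) • Hf (scl b (r / 6) z),
    ⟨hp1, ?_, ?_, ?_, ?_, ?_, ?_⟩, ?_⟩
  · refine ContDiffOn.add ?_ contDiffOn_const
    refine hsm.comp ?_ hm
    exact ((scl b (r / 6)).restrictScalars ℝ).contDiff.contDiffOn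
  · intro z hz e he
    rw [lev_add_const]
    have h1 := (hWCH.1 (ball (0 : Cn b) r) (ball (0 : Cn b) 6) isOpen_ball isOpen_ball
      (scl b (r / 6)) (scl b (r / 6)).differentiable.differentiableOn hm).2 Ψ hsm z hz
    have h2 := h1.1 e
    have h3 : lev (fun z => Ψ (scl b (r / 6) z)) z e = lev (Ψ ∘ scl b (r / 6)) z e := rfl
    rw [h3, h2, (scl b (r / 6)).fderiv]
    refine hpos _ (hm hz) _ ?_
    rw [scl_apply]
    exact smul_ne_zero (by exact_mod_cast hs.ne') he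
  · intro x hx
    rw [(hp2 x hx).2, hpot _ (hmV hx), hfd x]
    rfl
  · intro i j
    have h1 : ContDiffOn ℝ ∞ (fun z => Hf (scl b (r / 6) z) i j) (ball (0 : Cn b) 6) :=
      (hsmH i j).comp ((scl b (r / 6)).restrictScalars ℝ).contDiff.contDiffOn hm
    exact contDiffOn_const.mul h1
  · intro z hz
    have h1 := hposH _ (hm hz)
    refine h1.smul ?_
    have : (0 : ℝ) < (r / 6) ^ 2 := by positivity
    exact_mod_cast this
  · intro x hx
    ext i j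
    have h1 := hpm x hx (Pi.single (Fin.natAdd b i) 1) (Pi.single (Fin.natAdd b j) 1)
    have h5 : hermi (pm (b + k) q ψ ((scl (b + k) (r / 6)) x))
        ((fderiv ℂ (⇑(scl (b + k) (r / 6))) x) (Pi.single (Fin.natAdd b i) 1))
          ((fderiv ℂ (⇑(scl (b + k) (r / 6))) x) (Pi.single (Fin.natAdd b j) 1)) =
        (((r / 6) ^ 2 : ℝ) : ℂ) * hermi (pm (b + k) q ψ ((scl (b + k) (r / 6)) x))
          (Pi.single (Fin.natAdd b i) 1) (Pi.single (Fin.natAdd b j) 1) := by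
      rw [hfd x]
      exact hermi_smul _ _ _ _
    rw [h5, hermi_single, hermi_single] at h1
    have h2 : pm (b + k) q ψ (scl (b + k) (r / 6) x) (Fin.natAdd b i) (Fin.natAdd b j) =
        Hf (base (scl (b + k) (r / 6) x)) i j := congrFun (congrFun (hleaf _ (hmV hx)) i) j
    rw [h2] at h1
    exact h1
  · change ψ (scl (b + k) (r / 6) 0) = p
    rw [map_zero, h0]

theorem finspk_gen (hPARB : S_PARBK.{u, v}) (hPMB : S_PMB.{u, v}) (hWCH : S_WCH)
    {b k : ℕ} {G : Type u} {M : Type v} [Group G] [MulAction G M]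
    [TopologicalSpace M] [T2Space M] [ConnectedSpace M] [ChartedSpace (Fin (b + k) → ℂ) M]
    [IsManifold 𝓘(ℂ, Fin (b + k) → ℂ) ω M] {h q : M → Matrix (Fin (b + k)) (Fin (b + k)) ℂ}
    {v : M → ℝ} (D : DataK b k G M h v) (F : FlatFol b k G M q v)
    (hSPEC : ∀ p : M, ∃ r > 0, ∃ (ψ : Cn (b + k) → M) (Ψ : Cn b → ℝ)
      (Hf : Cn b → Matrix (Fin k) (Fin k) ℂ),
      SpecK v q (ball (0 : Cn b) r) (ball (0 : Cn k) r) ψ Ψ Hf ∧
      InjOn ψ (prodK (ball (0 : Cn b) r) (ball (0 : Cn k) r)) ∧ ψ 0 = p) :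
    ∃ (N : ℕ) (ψ : Fin N → Cn (b + k) → M) (Ψ : Fin N → Cn b → ℝ)
      (Hf : Fin N → Cn b → Matrix (Fin k) (Fin k) ℂ), 0 < N ∧
      (∀ i, SpecK v q (ball (0 : Cn b) 6) (ball (0 : Cn k) 6) (ψ i) (Ψ i) (Hf i)) ∧
      ∀ p : M, ∃ (γ : G) (i : Fin N), ∃ x ∈ prodK (ball (0 : Cn b) 1) (ball (0 : Cn k) 1),
        γ • p = ψ i x := by
  choose ψ Ψ Hf hS h0 using fun p : M => spec_one_gen hPARB hPMB hWCH D F hSPEC p
  obtain ⟨K, hK, hcov⟩ := D.act.cocompact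
  have hsub : prodK (ball (0 : Cn b) 1) (ball (0 : Cn k) 1) ⊆
      prodK (ball (0 : Cn b) 6) (ball (0 : Cn k) 6) :=
    fun x hx => ⟨ball_subset_ball (by norm_num) hx.1, ball_subset_ball (by norm_num) hx.2⟩
  have hopen : ∀ p : M, IsOpen (ψ p '' prodK (ball (0 : Cn b) 1) (ball (0 : Cn k) 1)) := fun p =>
    (hPARB D).2.2.2.1 _ (ψ p) (hS p).par _ hsub (isOpen_prodK isOpen_ball isOpen_ball)
  have hmem : ∀ p : M, p ∈ ψ p '' prodK (ball (0 : Cn b) 1) (ball (0 : Cn k) 1) := by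
    intro p
    refine ⟨0, ⟨?_, ?_⟩, h0 p⟩
    · exact mem_ball_self one_pos
    · exact mem_ball_self one_pos
  obtain ⟨t, ht⟩ := hK.elim_finite_subcover
    (fun p : M => ψ p '' prodK (ball (0 : Cn b) 1) (ball (0 : Cn k) 1)) hopen
    (fun p _ => mem_iUnion.mpr ⟨p, hmem p⟩)
  obtain ⟨x₀⟩ := (inferInstance : Nonempty M)
  obtain ⟨γ₀, hγ₀⟩ := hcov x₀
  have hpos : 0 < t.card := by
    obtain ⟨p, hp⟩ := mem_iUnion.mp (ht hγ₀)
    obtain ⟨hpt, -⟩ := mem_iUnion.mp hp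
    exact Finset.card_pos.mpr ⟨p, hpt⟩
  refine ⟨t.card, fun i => ψ (t.equivFin.symm i), fun i => Ψ (t.equivFin.symm i),
    fun i => Hf (t.equivFin.symm i), hpos, fun i => hS _, ?_⟩
  intro p
  obtain ⟨γ, hγ⟩ := hcov p
  obtain ⟨q', hq⟩ := mem_iUnion.mp (ht hγ)
  obtain ⟨hqt, x, hx, hxe⟩ := mem_iUnion.mp hq
  refine ⟨γ, t.equivFin ⟨q', hqt⟩, x, hx, ?_⟩
  simp only [Equiv.symm_apply_apply]
  exact hxe.symm

/-- FLS. -/
theorem fls (hAFFC : S_AFFC) (hPARBK : S_PARBK.{u, v}) (hPMB : S_PMB.{u, v}) (hWCH : S_WCH) :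
    Pool.Agent.Helper10.HS.S_FLS.{u, v} := by
  intro k G M _ _ _ _ _ _ _ h q v hD hFol
  exact finspk_gen hPARBK hPMB hWCH hD hFol fun p => speck_gen Pool.Agent.Helper10.SP.Wirt.wirt hWCH
    hPARBK hPMB hAFFC hD hFol (fun U Δ ψ _ _ _ x _ a => a.elim0) p

end Pool.Agent.Helper49.HS
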